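import Pool.Agent.Work.MP_82f4f8_an.Bd.B03

/-!
Proof of `PsiFacts`: boundary values, injectivity and image of the exterior map.
-/

set_option autoImplicit false

noncomputable section

namespace Pool.Agent.Work.MP_82f4f8_an

open Real MeasureTheory Set Filter Topology

/-! ### boundary values -/

lemma BB_eq_bdry {z : ℂ} (hz : ‖z‖ = 1) (hz1 : z ≠ -1) : BB z = (1 + z) ^ (1 / 2 : ℂ) := by
  -- approach from the inside
  have hl : Tendsto (fun r : ℝ => ((r : ℝ) : ℂ) * z) (𝓝[<] 1) (𝓝[Metric.closedBall 0 1] z) := by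
    apply tendsto_nhdsWithin_of_tendsto_nhds_of_eventually_within
    · have h : Continuous fun r : ℝ => ((r : ℝ) : ℂ) * z := by fun_prop
      have h2 := h.tendsto 1
      rw [Complex.ofReal_one, one_mul] at h2
      exact h2.mono_left nhdsWithin_le_nhds
    · have h0 : ∀ᶠ r : ℝ in 𝓝[<] 1, 0 < r :=
        nhdsWithin_le_nhds (Ioi_mem_nhds (by norm_num : (0:ℝ) < 1))
      filter_upwards [self_mem_nhdsWithin, h0] with r hr hr0
      have hr' : r < 1 := hr
      rw [mem_closedBall_zero_iff, norm_mul, hz, Complex.norm_real, Real.norm_of_nonneg hr0.le,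
        mul_one]
      exact hr'.le
  have h1 : Tendsto (fun r : ℝ => BB (((r : ℝ) : ℂ) * z)) (𝓝[<] 1) (𝓝 (BB z)) := by
    have := BB_cont z (by simp [hz])
    exact this.tendsto.comp hl
  have hslit : 1 + z ∈ Complex.slitPlane := by
    left
    rw [Complex.add_re, Complex.one_re]
    have h2 : |z.re| ≤ 1 := by rw [← hz]; exact Complex.abs_re_le_norm z
    rw [abs_le] at h2
    rcases lt_or_eq_of_le h2.1 with h3 | h3
    · linarith
    · exfalso
      apply hz1
      have h4 : z.re ^ 2 + z.im ^ 2 = 1 := by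
        have := Complex.sq_norm z
        rw [hz, Complex.normSq_apply] at this
        linarith
      have h5 : z.im = 0 := by
        rw [← h3] at h4
        nlinarith
      apply Complex.ext
      · simp [← h3]
      · simp [h5]
  have h2 : Tendsto (fun r : ℝ => (1 + ((r : ℝ) : ℂ) * z) ^ (1 / 2 : ℂ)) (𝓝[<] 1)
      (𝓝 ((1 + z) ^ (1 / 2 : ℂ))) := by
    have h3 : ContinuousAt (fun x : ℂ => (1 + x) ^ (1 / 2 : ℂ)) z := by
      apply ContinuousAt.cpow (by fun_prop) continuousAt_const hslit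
    exact h3.tendsto.comp (hl.mono_right nhdsWithin_le_nhds)
  refine tendsto_nhds_unique h1 (h2.congr' ?_)
  have h0 : ∀ᶠ r : ℝ in 𝓝[<] 1, 0 < r :=
    nhdsWithin_le_nhds (Ioi_mem_nhds (by norm_num : (0:ℝ) < 1))
  filter_upwards [self_mem_nhdsWithin, h0] with r hr hr0
  have hr' : r < 1 := hr
  symm
  apply BB_eq
  rw [norm_mul, hz, Complex.norm_real, Real.norm_of_nonneg hr0.le, mul_one]
  exact hr'

/-- the boundary function -/
def hb (t : ℝ) : ℂ := psi (Complex.exp (t * Complex.I))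

/-- the inverse boundary point -/
def xb (t : ℝ) : ℂ := Complex.exp (-(t * Complex.I))

lemma xb_norm (t : ℝ) : ‖xb t‖ = 1 := by
  unfold xb
  rw [Complex.norm_exp]
  simp

lemma xb_inv (t : ℝ) : (Complex.exp (t * Complex.I))⁻¹ = xb t := by
  unfold xb
  rw [Complex.exp_neg]

lemma xb_deriv (t : ℝ) : HasDerivAt xb (-Complex.I * xb t) t := by
  unfold xb
  have h1 : HasDerivAt (fun t : ℝ => ((t : ℝ) : ℂ)) 1 t := Complex.ofRealCLM.hasDerivAt
  have h2 := ((h1.mul_const Complex.I).fun_neg).cexp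
  refine h2.congr_deriv ?_
  ring

lemma hb_eq (t : ℝ) : hb t = Complex.exp (t * Complex.I) - SS (xb t) := by
  unfold hb
  rw [psi_eq, xb_inv]

lemma SSxb_deriv (t : ℝ) : HasDerivAt (fun t => SS (xb t))
    (∑' j : ℕ, -Complex.I * (((bc (j + 1) : ℝ) : ℂ) * xb t ^ (4 * j + 3))) t := by
  refine hasDerivAt_tsum (u := fun j : ℕ => |bc (j + 1)|)
    (g := fun (j : ℕ) (t : ℝ) => ((bc (j + 1) / (4 * j + 3) : ℝ) : ℂ) * xb t ^ (4 * j + 3))
    (g' := fun (j : ℕ) (t : ℝ) => -Complex.I * (((bc (j + 1) : ℝ) : ℂ) * xb t ^ (4 * j + 3)))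
    (y₀ := 0) summable_bc ?_ ?_ (SS_summable (xb_norm 0).le) t
  · intro n y
    have h := ((xb_deriv y).fun_pow (4 * n + 3)).const_mul (((bc (n + 1) / (4 * n + 3) : ℝ) : ℂ))
    refine h.congr_deriv ?_
    have h3 : (4 * (n : ℂ) + 3) ≠ 0 := by
      have : ((4 * (n : ℝ) + 3 : ℝ) : ℂ) ≠ 0 := by
        rw [Complex.ofReal_ne_zero]; positivity
      push_cast at this; exact this
    have e : 4 * n + 3 - 1 = 4 * n + 2 := by omega
    rw [e]
    push_cast
    field_simp
    ring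
  · intro n y
    rw [norm_mul, norm_mul, norm_bc, norm_pow, xb_norm]
    simp

lemma hb_deriv (t : ℝ) : HasDerivAt hb
    (Complex.I * Complex.exp (t * Complex.I) * BB (xb t ^ 4)) t := by
  have h0 : hb = fun t : ℝ => Complex.exp (t * Complex.I) - SS (xb t) := funext hb_eq
  rw [h0]
  have h1 : HasDerivAt (fun t : ℝ => ((t : ℝ) : ℂ)) 1 t := Complex.ofRealCLM.hasDerivAt
  have h2 := (h1.mul_const Complex.I).cexp
  refine (h2.sub (SSxb_deriv t)).congr_deriv ?_
  rw [← mul_SS'_eq, tsum_mul_left]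
  have h3 : Complex.exp (t * Complex.I) * xb t = 1 := by
    unfold xb
    rw [← Complex.exp_add]; simp
  have h4 : ∑' j : ℕ, ((bc (j + 1) : ℝ) : ℂ) * xb t ^ (4 * j + 3) =
      xb t * ∑' j : ℕ, ((bc (j + 1) : ℝ) : ℂ) * xb t ^ (4 * j + 2) := by
    rw [← tsum_mul_left]
    apply tsum_congr
    intro j
    ring
  rw [h4]
  linear_combination (-Complex.I * xb t *
    ∑' j : ℕ, ((bc (j + 1) : ℝ) : ℂ) * xb t ^ (4 * j + 2)) * h3

lemma hb_rot (t : ℝ) : hb (t + π / 2) = Complex.I * hb t := by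
  unfold hb
  rw [← psi_rot]
  congr 1
  push_cast
  rw [add_mul, Complex.exp_add, Complex.exp_pi_div_two_mul_I]
  ring

/-- derivative of the difference -/
def Eb (t : ℝ) : ℂ := Complex.I * Complex.exp (t * Complex.I) * BB (xb t ^ 4) - zeta' t

lemma Eb_cont : Continuous Eb := by
  have h1 : Continuous fun t => BB (xb t ^ 4) := by
    rw [← continuousOn_univ]
    refine BB_cont.comp ?_ fun t _ => ?_
    · unfold xb; fun_prop
    · simp [xb_norm]
  have h2 := cont_zeta'
  unfold Eb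
  fun_prop

lemma Eb_zero_in {t : ℝ} (h1 : -(π / 4) < t) (h2 : t < π / 4) : Eb t = 0 := by
  have hc := cos_pos_of h1 h2
  have hab : |t| ≤ π / 4 := abs_le.2 ⟨h1.le, h2.le⟩
  have hct : 0 < Real.cos t := Real.cos_pos_of_mem_Ioo ⟨by linarith [pi_pos], by linarith [pi_pos]⟩
  unfold Eb
  rw [zeta'_side hab]
  have e1 : 1 + xb t ^ 4 = (((Real.sqrt (2 * Real.cos (2 * t)) : ℝ) : ℂ) * xb t) ^ 2 := by
    have hx2 : 1 + xb t ^ 4 = ((2 * Real.cos (2 * t) : ℝ) : ℂ) * xb t ^ 2 := by
      unfold xb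
      rw [← Complex.exp_nat_mul, ← Complex.exp_nat_mul]
      push_cast
      rw [Complex.two_cos, add_mul, ← Complex.exp_add, ← Complex.exp_add]
      rw [show 2 * (t:ℂ) * Complex.I + 2 * -(t * Complex.I) = 0 by ring, Complex.exp_zero]
      congr 1
      congr 1
      ring
    rw [hx2, mul_pow, ← Complex.ofReal_pow, Real.sq_sqrt (by positivity)]
  have e2 : xb t ^ 4 ≠ -1 := by
    intro h
    rw [h, add_neg_cancel] at e1
    have h3 : ((Real.sqrt (2 * Real.cos (2 * t)) : ℝ) : ℂ) * xb t = 0 := by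
      rwa [eq_comm, sq_eq_zero_iff] at e1
    have h4 : ‖((Real.sqrt (2 * Real.cos (2 * t)) : ℝ) : ℂ) * xb t‖ = 0 := by rw [h3, norm_zero]
    rw [norm_mul, xb_norm, mul_one, Complex.norm_real, norm_eq_zero, Real.sqrt_eq_zero'] at h4
    linarith
  have e3 : ‖xb t ^ 4‖ = 1 := by rw [norm_pow, xb_norm, one_pow]
  rw [BB_eq_bdry e3 e2, e1]
  have e4 : ((((Real.sqrt (2 * Real.cos (2 * t)) : ℝ) : ℂ) * xb t) ^ 2) ^ (1 / 2 : ℂ)
      = ((Real.sqrt (2 * Real.cos (2 * t)) : ℝ) : ℂ) * xb t := by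
    rw [one_div]
    apply Complex.sq_cpow_two_inv
    rw [Complex.re_ofReal_mul]
    apply mul_pos (Real.sqrt_pos.2 (by linarith))
    unfold xb
    rw [Complex.exp_re]
    simp [hct]
  rw [e4]
  have h3 : Complex.exp (t * Complex.I) * xb t = 1 := by
    unfold xb
    rw [← Complex.exp_add]; simp
  linear_combination (Complex.I * ((Real.sqrt (2 * Real.cos (2 * t)) : ℝ) : ℂ)) * h3

lemma Eb_zero_side {t : ℝ} (h1 : -(π / 4) ≤ t) (h2 : t ≤ π / 4) : Eb t = 0 := by
  have hcl : IsClosed {t | Eb t = 0} := isClosed_eq Eb_cont continuous_const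
  have h3 : Ioo (-(π / 4)) (π / 4) ⊆ {t | Eb t = 0} := fun t ht => Eb_zero_in ht.1 ht.2
  have h4 := closure_minimal h3 hcl
  rw [closure_Ioo (by linarith [pi_pos])] at h4
  exact h4 ⟨h1, h2⟩

lemma Eb_rot (t : ℝ) : Eb (t + π / 2) = Complex.I * Eb t := by
  unfold Eb
  rw [zeta'_add]
  have h1 : Complex.exp (((t + π / 2 : ℝ) : ℂ) * Complex.I) = Complex.I * Complex.exp (t * Complex.I) := by
    push_cast
    rw [add_mul, Complex.exp_add, Complex.exp_pi_div_two_mul_I]
    ring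
  have h2 : xb (t + π / 2) ^ 4 = xb t ^ 4 := by
    rw [← xb_inv, ← xb_inv, h1, inv_pow, inv_pow, mul_pow, Complex.I_pow_four, one_mul]
  rw [h1, h2]
  ring

lemma Eb_zero (t : ℝ) : Eb t = 0 := by
  obtain ⟨k, τ, h1, h2, rfl⟩ := exists_side t
  rw [rot_int Eb_rot, Eb_zero_side h1 h2.le, mul_zero]

lemma bdry_eq (t : ℝ) : psi (Complex.exp (t * Complex.I)) = zeta t := by
  have hd : ∀ t, HasDerivAt (fun t => hb t - zeta t) (Eb t) t := fun t =>
    (hb_deriv t).sub (hasDerivAt_zeta t)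
  have hconst : ∀ s, hb s - zeta s = hb 0 - zeta 0 := by
    intro s
    apply is_const_of_deriv_eq_zero (f := fun t => hb t - zeta t)
    · exact fun t => (hd t).differentiableAt
    · intro t
      rw [(hd t).deriv, Eb_zero]
  have h1 : hb (0 + π / 2) - zeta (0 + π / 2) = Complex.I * (hb 0 - zeta 0) := by
    rw [hb_rot, zeta_add]; ring
  rw [hconst] at h1
  have h2 : hb 0 - zeta 0 = 0 := by
    have h3 : (1 - Complex.I) * (hb 0 - zeta 0) = 0 := by linear_combination h1
    rcases mul_eq_zero.1 h3 with h4 | h4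
    · exfalso
      have := congrArg Complex.re h4
      simp at this
    · exact h4
  have h3 := hconst t
  rw [h2, sub_eq_zero] at h3
  exact h3


/-! ### injectivity -/

lemma exists_arg {w : ℂ} (hw : ‖w‖ = 1) : w = Complex.exp (w.arg * Complex.I) := by
  have h := Complex.norm_mul_exp_arg_mul_I w
  rw [hw, Complex.ofReal_one, one_mul] at h
  exact h.symm

lemma psi_inj : InjOn psi {w | 1 ≤ ‖w‖} := by
  intro w hw w' hw' h
  have hw1 : 1 ≤ ‖w‖ := hw
  have hw1' : 1 ≤ ‖w'‖ := hw'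
  have h1 := psi_fac hw1 hw1'
  rw [h, sub_self, eq_comm, mul_eq_zero] at h1
  rcases h1 with h1 | h1
  · exact sub_eq_zero.1 h1
  have h2 := Rf_bound (inv_norm_le hw1) (inv_norm_le hw1')
  rw [h1, zero_sub, norm_neg, norm_one] at h2
  have h3 : ‖w‖ = 1 := by
    by_contra hne
    have h4 := inv_norm_lt (lt_of_le_of_ne hw1 (Ne.symm hne))
    have h5 := inv_norm_le hw1'
    have := mul_le_of_le_one_right (norm_nonneg w⁻¹) h5
    linarith
  have h3' : ‖w'‖ = 1 := by
    by_contra hne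
    have h4 := inv_norm_lt (lt_of_le_of_ne hw1' (Ne.symm hne))
    have h5 := inv_norm_le hw1
    have := mul_le_of_le_one_left (norm_nonneg w'⁻¹) h5
    linarith
  have ha := Complex.arg_mem_Ioc w
  have ha' := Complex.arg_mem_Ioc w'
  have hz : zeta w.arg = zeta w'.arg := by
    rw [← bdry_eq, ← bdry_eq, ← exists_arg h3, ← exists_arg h3', h]
  have harg : w.arg = w'.arg := by
    by_contra hne
    rcases lt_or_gt_of_ne hne with h6 | h6
    · exact zeta_ne h6 (by linarith [ha.1, ha'.2]) hz.symm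
    · exact zeta_ne h6 (by linarith [ha'.1, ha.2]) hz
  rw [exists_arg h3, exists_arg h3', harg]

/-! ### the image -/

/-- the exterior of the square -/
def Ext : Set ℂ := {z | aa < max |z.re| |z.im|}

/-- the exterior of the unit disc -/
def DD : Set ℂ := {w | 1 < ‖w‖}

lemma DD_sub : DD ⊆ {w : ℂ | 1 ≤ ‖w‖} := by
  intro w hw
  have hw' : 1 < ‖w‖ := hw
  exact hw'.le

lemma isOpen_DD : IsOpen DD := isOpen_lt continuous_const continuous_norm

lemma isOpen_Ext : IsOpen Ext := isOpen_lt continuous_const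
  ((Complex.continuous_re.abs).max (Complex.continuous_im.abs))

lemma isOpen_Int : IsOpen {z : ℂ | max |z.re| |z.im| < aa} := isOpen_lt
  ((Complex.continuous_re.abs).max (Complex.continuous_im.abs)) continuous_const

lemma preconn_strip : IsPreconnected (Ioi (1 : ℝ) ×ˢ (univ : Set ℝ)) :=
  isPreconnected_Ioi.prod isPreconnected_univ

lemma preconn_DD : IsPreconnected DD := by
  have h : DD = (fun p : ℝ × ℝ => ((p.1 : ℝ) : ℂ) * Complex.exp (p.2 * Complex.I)) ''
      (Ioi (1 : ℝ) ×ˢ (univ : Set ℝ)) := by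
    ext w
    constructor
    · intro hw
      exact ⟨(‖w‖, w.arg), ⟨hw, mem_univ _⟩, Complex.norm_mul_exp_arg_mul_I w⟩
    · rintro ⟨⟨r, t⟩, ⟨hr, _⟩, rfl⟩
      have hr' : 1 < r := hr
      show 1 < ‖((r : ℝ) : ℂ) * Complex.exp (t * Complex.I)‖
      rw [norm_mul, Complex.norm_exp_ofReal_mul_I, mul_one, Complex.norm_real,
        Real.norm_of_nonneg (by linarith)]
      exact hr'
  rw [h]
  apply preconn_strip.image
  fun_prop

lemma max_mul (r : ℝ) (hr : 0 ≤ r) (z : ℂ) :
    max |(((r : ℝ) : ℂ) * z).re| |(((r : ℝ) : ℂ) * z).im| = r * max |z.re| |z.im| := by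
  rw [Complex.re_ofReal_mul, Complex.im_ofReal_mul, abs_mul, abs_mul, abs_of_nonneg hr,
    mul_max_of_nonneg _ _ hr]

lemma preconn_Ext : IsPreconnected Ext := by
  have ha := aa_pos
  have h : Ext = (fun p : ℝ × ℝ => ((p.1 : ℝ) : ℂ) * zeta p.2) ''
      (Ioi (1 : ℝ) ×ˢ (univ : Set ℝ)) := by
    ext z
    constructor
    · intro hz
      have hz' : aa < max |z.re| |z.im| := hz
      set m := max |z.re| |z.im| with hm
      have hm0 : 0 < m := lt_trans ha hz'
      have h1 : ((aa / m : ℝ) : ℂ) * z ∈ Gam := by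
        show max _ _ = aa
        rw [max_mul _ (by positivity), ← hm]
        field_simp
      obtain ⟨t, ht⟩ := zeta_surj h1
      refine ⟨(m / aa, t), ⟨?_, mem_univ _⟩, ?_⟩
      · show 1 < m / aa
        rw [one_lt_div ha]; exact hz'
      · show ((m / aa : ℝ) : ℂ) * zeta t = z
        rw [ht, ← mul_assoc, ← Complex.ofReal_mul]
        have : m / aa * (aa / m) = 1 := by field_simp
        rw [this, Complex.ofReal_one, one_mul]
    · rintro ⟨⟨r, t⟩, ⟨hr, _⟩, rfl⟩
      have hr' : 1 < r := hr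
      show aa < max _ _
      simp only
      rw [max_mul _ (by linarith)]
      have : max |(zeta t).re| |(zeta t).im| = aa := zeta_mem t
      rw [this]
      nlinarith
  rw [h]
  apply preconn_strip.image
  have := cont_zeta
  fun_prop

lemma psi_not_gam {w : ℂ} (hw : 1 < ‖w‖) : psi w ∉ Gam := by
  intro h
  obtain ⟨t, ht⟩ := zeta_surj h
  rw [← bdry_eq] at ht
  have hn : ‖Complex.exp (t * Complex.I)‖ = 1 := Complex.norm_exp_ofReal_mul_I t
  have := psi_inj (show 1 ≤ ‖Complex.exp (t * Complex.I)‖ by rw [hn]) (show 1 ≤ ‖w‖ from hw.le) ht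
  rw [← this, hn] at hw
  exact lt_irrefl _ hw

lemma norm_psi_ge {w : ℂ} (hw : 1 ≤ ‖w‖) : ‖w‖ - 1 ≤ ‖psi w‖ := by
  rw [psi_eq]
  have h1 := norm_sub_norm_le w (SS w⁻¹)
  have h2 := SS_norm_le (inv_norm_le hw)
  linarith

lemma isClosed_image : IsClosed (psi '' {w | 1 ≤ ‖w‖}) := by
  rw [← isSeqClosed_iff_isClosed]
  intro z z0 hz hlim
  choose w hw hwz using hz
  -- bounded
  obtain ⟨C, hC⟩ := hlim.norm.bddAbove_range
  have hb : ∀ n, w n ∈ Metric.closedBall (0 : ℂ) (C + 1) := by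
    intro n
    rw [mem_closedBall_zero_iff]
    have h1 := norm_psi_ge (hw n)
    rw [hwz n] at h1
    have h2 : ‖z n‖ ≤ C := hC (mem_range_self n)
    linarith
  obtain ⟨w0, _, φ, hφ, hlim2⟩ := (isCompact_closedBall (0 : ℂ) (C + 1)).tendsto_subseq hb
  have hcl : IsClosed {w : ℂ | 1 ≤ ‖w‖} := isClosed_le continuous_const continuous_norm
  have hw0 : w0 ∈ {w : ℂ | 1 ≤ ‖w‖} :=
    hcl.mem_of_tendsto hlim2 (Eventually.of_forall fun n => hw (φ n))
  refine ⟨w0, hw0, ?_⟩
  have h1 : Tendsto (fun n => psi (w (φ n))) atTop (𝓝 (psi w0)) := by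
    have h2 : Tendsto (fun n => w (φ n)) atTop (𝓝[{w : ℂ | 1 ≤ ‖w‖}] w0) :=
      tendsto_nhdsWithin_of_tendsto_nhds_of_eventually_within _ hlim2
        (Eventually.of_forall fun n => hw (φ n))
    exact (psi_cont w0 hw0).tendsto.comp h2
  have h3 : Tendsto (fun n => psi (w (φ n))) atTop (𝓝 z0) := by
    have h4 : (fun n => psi (w (φ n))) = fun n => z (φ n) := funext fun n => hwz (φ n)
    rw [h4]
    exact hlim.comp hφ.tendsto_atTop
  exact tendsto_nhds_unique h1 h3

lemma isOpen_image : IsOpen (psi '' DD) := by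
  have hd : DifferentiableOn ℂ psi DD := fun w hw =>
    (psi_deriv hw).differentiableAt.differentiableWithinAt
  have han : AnalyticOnNhd ℂ psi DD := hd.analyticOnNhd isOpen_DD
  rcases han.is_constant_or_isOpen preconn_DD with h | h
  · exfalso
    obtain ⟨c, hc⟩ := h
    have h2 : (2 : ℂ) ∈ DD := by show 1 < ‖(2:ℂ)‖; simp
    have h3 : (3 : ℂ) ∈ DD := by show 1 < ‖(3:ℂ)‖; simp
    have h4 := psi_inj (show 1 ≤ ‖(2:ℂ)‖ by simp) (show 1 ≤ ‖(3:ℂ)‖ by simp)
      ((hc 2 h2).trans (hc 3 h3).symm)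
    norm_num at h4
  · exact h DD (le_refl _) isOpen_DD

lemma image_meets : (Ext ∩ psi '' DD).Nonempty := by
  have ha := aa_pos
  -- a point with large norm
  set R : ℝ := 2 * aa + 2 with hR
  have h1 : ‖((R : ℝ) : ℂ)‖ = R := by
    rw [Complex.norm_real, Real.norm_of_nonneg (by positivity)]
  have h2 : ((R : ℝ) : ℂ) ∈ DD := by
    show 1 < ‖((R : ℝ) : ℂ)‖
    rw [h1]; linarith
  refine ⟨psi R, ?_, mem_image_of_mem _ h2⟩
  show aa < max _ _
  have h3 := norm_psi_ge (w := ((R : ℝ) : ℂ)) (by rw [h1]; linarith)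
  rw [h1] at h3
  have h4 := Complex.norm_le_abs_re_add_abs_im (psi R)
  by_contra hcon
  have hcon' := max_le_iff.1 (not_lt.1 hcon)
  linarith [hcon'.1, hcon'.2]

lemma psi_maps {w : ℂ} (hw : 1 < ‖w‖) : aa < max |(psi w).re| |(psi w).im| := by
  have hpre : IsPreconnected (psi '' DD) :=
    preconn_DD.image _ (psi_cont.mono DD_sub)
  have hdisj : Disjoint Ext {z : ℂ | max |z.re| |z.im| < aa} := by
    rw [Set.disjoint_left]
    intro z hz hz2
    exact lt_asymm (show aa < max |z.re| |z.im| from hz) hz2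
  have hsub : psi '' DD ⊆ Ext ∪ {z : ℂ | max |z.re| |z.im| < aa} := by
    rintro z ⟨w, hw, rfl⟩
    rcases lt_trichotomy (max |(psi w).re| |(psi w).im|) aa with h | h | h
    · exact Or.inr h
    · exact absurd h (psi_not_gam hw)
    · exact Or.inl h
  have hmeet : (psi '' DD ∩ Ext).Nonempty := by
    rw [inter_comm]; exact image_meets
  exact hpre.subset_left_of_subset_union isOpen_Ext isOpen_Int hdisj hsub hmeet
    (mem_image_of_mem _ hw)

lemma psi_surj {z : ℂ} (hz : aa < max |z.re| |z.im|) : ∃ w : ℂ, 1 < ‖w‖ ∧ psi w = z := by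
  have h := preconn_Ext.subset_of_closure_inter_subset isOpen_image image_meets (by
    rintro y ⟨hy1, hy2⟩
    have h1 : closure (psi '' DD) ⊆ psi '' {w | 1 ≤ ‖w‖} :=
      closure_minimal (image_mono DD_sub) isClosed_image
    obtain ⟨w, hw, rfl⟩ := h1 hy1
    have hw' : 1 ≤ ‖w‖ := hw
    rcases lt_or_eq_of_le hw' with h2 | h2
    · exact mem_image_of_mem _ h2
    · exfalso
      rw [exists_arg h2.symm, bdry_eq] at hy2
      have h3 : max |(zeta w.arg).re| |(zeta w.arg).im| = aa := zeta_mem _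
      have h4 : aa < max |(zeta w.arg).re| |(zeta w.arg).im| := hy2
      linarith)
  obtain ⟨w, hw, hwz⟩ := h hz
  exact ⟨w, hw, hwz⟩

theorem psiFacts : PsiFacts where
  cont := psi_cont
  deriv := fun _ hw => psi_deriv hw
  rfac := fun _ _ hw hw' => psi_fac hw hw'
  rbound := fun _ _ hx hy => Rf_bound hx hy
  rdiff := fun _ hx => Rf_diff hx
  rcont := Rf_cont
  rot := psi_rot
  bdry := bdry_eq
  maps := fun _ hw => psi_maps hw
  surj := fun _ hz => psi_surj hz
  inj := psi_inj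

end Pool.Agent.Work.MP_82f4f8_an
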