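import Pool.Agent.Work.MP_82f4f8_an.Bd.B05
import Pool.Agent.Work.MP_82f4f8_an.Psi
import Pool.Agent.Work.MP_82f4f8_an.Bd.B03

/-!
Final assembly.
-/

set_option autoImplicit false

noncomputable section

namespace Pool.Agent.Work.MP_82f4f8_an

open Real MeasureTheory Set Filter Topology

/-- an interior point at distance at least `δ` from the boundary -/
lemma interior_dist {x : ℂ} {δ : ℝ} (hx : max |x.re| |x.im| ≤ aa)
    (hd : ∀ w : ℂ, max |w.re| |w.im| = aa → δ ≤ ‖x - w‖) : max |x.re| |x.im| ≤ aa - δ := by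
  have ha := aa_pos
  have key : ∀ (u v : ℝ), |u| ≤ aa → |v| ≤ |u| → ∃ s : ℝ, |s| = aa ∧ |u - s| = aa - |u| := by
    intro u v hu _
    rcases le_total 0 u with h | h
    · refine ⟨aa, abs_of_pos ha, ?_⟩
      rw [abs_of_nonneg h] at hu ⊢
      rw [abs_of_nonpos (by linarith)]
      ring
    · refine ⟨-aa, by rw [abs_neg, abs_of_pos ha], ?_⟩
      rw [abs_of_nonpos h] at hu ⊢
      rw [abs_of_nonneg (by linarith)]
      ring
  rcases le_total |x.im| |x.re| with h | h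
  · rw [max_eq_left h] at hx ⊢
    obtain ⟨s, hs, hs2⟩ := key x.re x.im hx h
    have h1 := hd ⟨s, x.im⟩ (by
      simp only
      rw [hs, max_eq_left (le_trans h hx)])
    have h2 : ‖x - ⟨s, x.im⟩‖ = aa - |x.re| := by
      rw [← hs2]
      have e : x - ⟨s, x.im⟩ = ((x.re - s : ℝ) : ℂ) := by
        apply Complex.ext <;> simp
      rw [e, Complex.norm_real, Real.norm_eq_abs]
    rw [h2] at h1
    linarith
  · rw [max_eq_right h] at hx ⊢
    obtain ⟨s, hs, hs2⟩ := key x.im x.re hx h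
    have h1 := hd ⟨x.re, s⟩ (by
      simp only
      rw [hs, max_eq_right (le_trans h hx)])
    have h2 : ‖x - ⟨x.re, s⟩‖ = aa - |x.im| := by
      rw [← hs2]
      have e : x - ⟨x.re, s⟩ = ((x.im - s : ℝ) : ℂ) * Complex.I := by
        apply Complex.ext <;> simp
      rw [e, norm_mul, Complex.norm_I, mul_one, Complex.norm_real, Real.norm_eq_abs]
    rw [h2] at h1
    linarith

theorem main_bound {φ : ℂ → ℂ}
    (hd : DifferentiableOn ℂ φ {z : ℂ | aa < max |z.re| |z.im|})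
    (hi : Set.InjOn φ {z : ℂ | aa < max |z.re| |z.im|})
    (him : φ '' {z : ℂ | aa < max |z.re| |z.im|} = {w : ℂ | 1 < ‖w‖})
    (hinf : Filter.Tendsto (fun z => ‖φ z‖) (Filter.cocompact ℂ) Filter.atTop)
    {δ : ℝ} (hδ : 0 < δ) :
    ∃ C : ℝ, ∀ n : ℕ, 2 ≤ n → ∀ p : Fin n → ℂ, IsFekP n p → ∀ x : ℂ,
      (∀ w : ℂ, max |w.re| |w.im| = aa → δ ≤ ‖x - w‖) →
        |(1 / (n : ℝ)) * ∑ k, Real.log ‖x - p k‖
          - (if aa < max |x.re| |x.im| then Real.log ‖φ x‖ else 0)| ≤ C / n := by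
  have hpi := pi_pos
  have H := psiFacts
  obtain ⟨C1, hC1, hL1⟩ := L1_bound H
  obtain ⟨C2, hC2⟩ := interior_rep δ hδ
  set M1 : ℝ := (1 + 4 / δ) / (2 * π) with hM1
  set M2 : ℝ := |C2| with hM2
  refine ⟨(M1 + M2) * C1 + 2 * (2 * π * Real.sqrt 2 / δ), fun n hn p hp x hx => ?_⟩
  have hn1 : 0 < n := by omega
  have hn0 : (0:ℝ) < n := by exact_mod_cast hn1
  choose t ht using fun k => zeta_surj (hp.mem k)
  have hpt : p = fun k => zeta (t k) := by funext k; exact (ht k).symm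
  subst hpt
  have hxz : ∀ s, δ ≤ ‖x - zeta s‖ := fun s => hx _ (zeta_mem s)
  have hfin : ∀ c : ℝ, |VV (fun k => zeta (t k)) x - n * c|
      ≤ (M1 + M2) * C1 + 2 * (2 * π * Real.sqrt 2 / δ) →
      |(1 / (n : ℝ)) * ∑ k, Real.log ‖x - zeta (t k)‖ - c|
        ≤ ((M1 + M2) * C1 + 2 * (2 * π * Real.sqrt 2 / δ)) / n := by
    intro c h
    have e : (1 / (n : ℝ)) * ∑ k, Real.log ‖x - zeta (t k)‖ - c
        = (VV (fun k => zeta (t k)) x - n * c) / n := by
      unfold VV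
      field_simp
    rw [e, abs_div, abs_of_pos hn0]
    exact div_le_div_of_nonneg_right h hn0.le
  have hM1p : 0 ≤ M1 := by positivity
  have hM2p : 0 ≤ M2 := abs_nonneg _
  split_ifs with hcase
  · apply hfin
    obtain ⟨w, hw, hwx⟩ := H.surj x hcase
    have hphi : Real.log ‖φ x‖ = Real.log ‖w‖ := by
      rw [← hwx, log_phi H hd hi him hinf hw]
    rw [hphi]
    obtain ⟨ρ, hρc, hρb, -, hρ⟩ := exterior_rep H hw
    rw [hwx] at hρ
    have hwl := w_lower H hw (δ := δ) (by rw [hwx]; exact hxz)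
    have hb : ∀ s, 0 ≤ ρ s ∧ ρ s ≤ M1 := by
      intro s
      refine ⟨(hρb s).1, le_trans (hρb s).2 ?_⟩
      have h1 : 0 < ‖w‖ - 1 := by linarith
      have h2 : (‖w‖ + 1) / (‖w‖ - 1) ≤ 1 + 4 / δ := by
        rw [div_le_iff₀ h1]
        have h3 : 2 ≤ 4 / δ * (‖w‖ - 1) := by
          have h4 : 4 / δ * (δ / 2) ≤ 4 / δ * (‖w‖ - 1) :=
            mul_le_mul_of_nonneg_left hwl (by positivity)
          have h5 : 4 / δ * (δ / 2) = 2 := by field_simp; norm_num
          linarith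
        nlinarith
      calc (‖w‖ + 1) / (2 * π * (‖w‖ - 1)) = ((‖w‖ + 1) / (‖w‖ - 1)) / (2 * π) := by field_simp
        _ ≤ (1 + 4 / δ) / (2 * π) := div_le_div_of_nonneg_right h2 (by positivity)
    have h6 := rep_bound hn1 t hp (hL1 n hn t hp) hρc.measurable hb hρ hδ hxz
    nlinarith [mul_nonneg hM2p hC1.le]
  · have hint := interior_dist (not_lt.1 hcase) hx
    obtain ⟨ρ, hρm, hρb, hρ⟩ := hC2 x hint
    have h6 := rep_bound (c := 0) hn1 t hp (hL1 n hn t hp) hρm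
      (M := M2) (fun s => ⟨(hρb s).1, le_trans (hρb s).2 (le_abs_self _)⟩)
      (fun t => by rw [sub_zero]; exact hρ t) hδ hxz
    apply hfin
    nlinarith [mul_nonneg hM1p hC1.le]

end Pool.Agent.Work.MP_82f4f8_an
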