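import Pool.Agent.Work.MP_82f4f8_an.Bd.B02

/-!
# Harnack type energy inequality
-/

set_option autoImplicit false

noncomputable section

namespace Pool.Agent.Work.MP_82f4f8_an

open Real MeasureTheory Set

namespace HarnackAux

lemma slit {w z : ℂ} (hw : ‖w‖ ≤ 1 / 2) (hz : ‖z‖ < 3 / 2) : 1 + w * z ∈ Complex.slitPlane := by
  rw [Complex.mem_slitPlane_iff]
  left
  have h1 : ‖w * z‖ < 1 := by
    rw [norm_mul]
    nlinarith [norm_nonneg w, norm_nonneg z]
  have h2 := Complex.abs_re_le_norm (w * z)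
  have h3 := neg_abs_le (w * z).re
  simp only [Complex.add_re, Complex.one_re]
  linarith

lemma circ_log {w : ℂ} (hw : ‖w‖ ≤ 1 / 2) :
    (∫ θ in (0:ℝ)..(2*π), Real.log ‖1 + w * Complex.exp (θ * Complex.I)‖ = 0) ∧
    (∫ θ in (0:ℝ)..(2*π), Real.log ‖1 + w * Complex.exp (θ * Complex.I)‖ * Real.cos θ
      = π * w.re) := by
  set f : ℂ → ℂ := fun z => Complex.log (1 + w * z) with hf
  have hdiff : DifferentiableOn ℂ f (Metric.ball 0 (3/2)) := by
    intro z hz
    rw [mem_ball_zero_iff] at hz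
    have h1 : DifferentiableAt ℂ (fun z => 1 + w * z) z := by fun_prop
    exact (h1.clog (slit hw hz)).differentiableWithinAt
  have hsub : Metric.closedBall (0:ℂ) 1 ⊆ Metric.ball 0 (3/2) :=
    Metric.closedBall_subset_ball (by norm_num)
  have hdc : DiffContOnCl ℂ f (Metric.ball 0 1) := hdiff.diffContOnCl_ball hsub
  have hf0 : f 0 = 0 := by simp [hf]
  have hder : deriv f 0 = w := by
    have h1 : HasDerivAt (fun z : ℂ => 1 + w * z) w 0 := by
      simpa using ((hasDerivAt_id (0:ℂ)).const_mul w).const_add 1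
    have h2 := h1.clog (slit hw (by simp))
    rw [h2.deriv]; simp
  have I1 : ∮ z in C(0, 1), f z = 0 := hdc.circleIntegral_eq_zero zero_le_one
  have I0 : ∮ z in C(0, 1), (z - 0)⁻¹ • f z = (2 * π * Complex.I : ℂ) • f 0 :=
    hdc.circleIntegral_sub_inv_smul (Metric.mem_ball_self one_pos)
  have I2 := Complex.two_pi_I_inv_smul_circleIntegral_sub_sq_inv_smul_of_differentiable
    (w₀ := (0:ℂ)) Metric.isOpen_ball hsub hdiff (Metric.mem_ball_self one_pos)
  rw [hder] at I2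
  rw [hf0] at I0
  simp only [circleIntegral, deriv_circleMap, circleMap_zero, Complex.ofReal_one, one_mul,
    sub_zero, smul_eq_mul, mul_zero] at I0 I1 I2
  set L : ℝ → ℂ := fun θ => f (Complex.exp (θ * Complex.I)) with hL
  have hLc : Continuous L := by
    rw [continuous_iff_continuousAt]
    intro θ
    have h1 : ContinuousAt f (Complex.exp (θ * Complex.I)) := by
      refine (hdiff.differentiableAt (Metric.isOpen_ball.mem_nhds ?_)).continuousAt
      rw [mem_ball_zero_iff, Complex.norm_exp_ofReal_mul_I]; norm_num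
    exact ContinuousAt.comp (f := fun θ : ℝ => Complex.exp (θ * Complex.I)) h1 (by fun_prop)
  have hne : ∀ θ : ℝ, Complex.exp (θ * Complex.I) ≠ 0 := fun θ => Complex.exp_ne_zero _
  have A0 : ∫ θ in (0:ℝ)..(2*π), L θ = 0 := by
    have e : ∀ θ : ℝ, Complex.exp (θ * Complex.I) * Complex.I *
        ((Complex.exp (θ * Complex.I))⁻¹ * f (Complex.exp (θ * Complex.I))) =
        Complex.I * L θ := by
      intro θ
      have := hne θ
      field_simp
      rfl
    simp only [e] at I0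
    rw [intervalIntegral.integral_const_mul] at I0
    exact (mul_eq_zero.1 I0).resolve_left Complex.I_ne_zero
  have A1 : ∫ θ in (0:ℝ)..(2*π), Complex.exp (θ * Complex.I) * L θ = 0 := by
    have e : ∀ θ : ℝ, Complex.exp (θ * Complex.I) * Complex.I *
        f (Complex.exp (θ * Complex.I)) =
        Complex.I * (Complex.exp (θ * Complex.I) * L θ) := by
      intro θ
      simp only [hL]; ring
    simp only [e] at I1
    rw [intervalIntegral.integral_const_mul] at I1
    exact (mul_eq_zero.1 I1).resolve_left Complex.I_ne_zero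
  have A2 : ∫ θ in (0:ℝ)..(2*π), Complex.exp (-(θ * Complex.I)) * L θ = 2 * π * w := by
    have e : ∀ θ : ℝ, Complex.exp (θ * Complex.I) * Complex.I *
        ((Complex.exp (θ * Complex.I) ^ 2)⁻¹ * f (Complex.exp (θ * Complex.I))) =
        Complex.I * (Complex.exp (-(θ * Complex.I)) * L θ) := by
      intro θ
      have := hne θ
      rw [Complex.exp_neg]
      field_simp
      rfl
    simp only [e] at I2
    rw [intervalIntegral.integral_const_mul] at I2
    have hpi : (π : ℂ) ≠ 0 := by exact_mod_cast Real.pi_ne_zero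
    have hI := Complex.I_ne_zero
    generalize (∫ θ in (0:ℝ)..(2*π), Complex.exp (-(θ * Complex.I)) * L θ) = Q at I2 ⊢
    field_simp at I2
    rw [I2]
  have hre : ∀ θ : ℝ, (L θ).re = Real.log ‖1 + w * Complex.exp (θ * Complex.I)‖ := by
    intro θ
    simp only [hL, hf, Complex.log_re]
  constructor
  · have h1 := Complex.reCLM.intervalIntegral_comp_comm (μ := volume)
      (hLc.intervalIntegrable 0 (2 * π))
    rw [A0] at h1
    simpa [hre] using h1
  · have hc2 : Continuous (fun θ : ℝ => L θ * (Real.cos θ : ℂ)) := by fun_prop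
    have h1 := Complex.reCLM.intervalIntegral_comp_comm (μ := volume)
      (hc2.intervalIntegrable 0 (2 * π))
    have h2 : ∫ θ in (0:ℝ)..(2*π), L θ * (Real.cos θ : ℂ) = π * w := by
      have e : ∀ θ : ℝ, L θ * (Real.cos θ : ℂ) =
          (1 / 2 : ℂ) * (Complex.exp (θ * Complex.I) * L θ) +
          (1 / 2 : ℂ) * (Complex.exp (-(θ * Complex.I)) * L θ) := by
        intro θ
        rw [Complex.ofReal_cos, Complex.cos]
        rw [neg_mul]
        ring
      simp only [e]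
      rw [intervalIntegral.integral_add, intervalIntegral.integral_const_mul,
        intervalIntegral.integral_const_mul, A1, A2]
      · ring
      · exact Continuous.intervalIntegrable (by fun_prop) _ _
      · exact Continuous.intervalIntegrable (by fun_prop) _ _
    rw [h2] at h1
    have h3 : ∀ θ : ℝ, (L θ * (Real.cos θ : ℂ)).re =
        Real.log ‖1 + w * Complex.exp (θ * Complex.I)‖ * Real.cos θ := by
      intro θ
      rw [Complex.re_mul_ofReal, hre]
    simp only [Complex.reCLM_apply, h3] at h1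
    rw [h1, Complex.re_ofReal_mul]

lemma circ_log' {w : ℂ} (hw : ‖w‖ ≤ 1 / 2) (c : ℝ) :
    IntervalIntegrable (fun θ : ℝ => Real.log ‖1 + w * Complex.exp (θ * Complex.I)‖ *
      (1 + c * Real.cos θ)) volume 0 (2 * π) ∧
    ∫ θ in (0:ℝ)..(2*π), Real.log ‖1 + w * Complex.exp (θ * Complex.I)‖ * (1 + c * Real.cos θ)
      = c * π * w.re := by
  have hne : ∀ θ : ℝ, ‖1 + w * Complex.exp (θ * Complex.I)‖ ≠ 0 := by
    intro θ
    rw [norm_ne_zero_iff]
    exact Complex.slitPlane_ne_zero (slit hw (by rw [Complex.norm_exp_ofReal_mul_I]; norm_num))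
  have hc1 : Continuous (fun θ : ℝ => Real.log ‖1 + w * Complex.exp (θ * Complex.I)‖) :=
    Continuous.log (by fun_prop) hne
  obtain ⟨h0, h1⟩ := circ_log hw
  refine ⟨Continuous.intervalIntegrable (by fun_prop) _ _, ?_⟩
  have e : ∀ θ : ℝ, Real.log ‖1 + w * Complex.exp (θ * Complex.I)‖ * (1 + c * Real.cos θ) =
      Real.log ‖1 + w * Complex.exp (θ * Complex.I)‖ +
      c * (Real.log ‖1 + w * Complex.exp (θ * Complex.I)‖ * Real.cos θ) := by
    intro θ; ring
  simp only [e]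
  rw [intervalIntegral.integral_add, intervalIntegral.integral_const_mul, h0, h1]
  · ring
  · exact Continuous.intervalIntegrable (by fun_prop) _ _
  · exact Continuous.intervalIntegrable (by fun_prop) _ _

lemma log_bd {v : ℂ} (hv : ‖v‖ ≤ 1 / 2) : |Real.log ‖1 + v‖| ≤ Real.log 2 := by
  have h1 : ‖1 + v‖ ≤ 3 / 2 := by
    have := norm_add_le (1 : ℂ) v
    rw [norm_one] at this
    linarith
  have h2 : 1 / 2 ≤ ‖1 + v‖ := by
    have := norm_sub_norm_le (1 : ℂ) (-v)
    rw [norm_one, norm_neg, sub_neg_eq_add] at this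
    linarith
  rw [abs_le]
  constructor
  · rw [← Real.log_inv]
    exact Real.log_le_log (by norm_num) (by linarith)
  · exact Real.log_le_log (by linarith) (by linarith)

lemma rot_norm (w : ℂ) (θ : ℝ) : ‖w * Complex.exp (θ * Complex.I)‖ = ‖w‖ := by
  rw [norm_mul, Complex.norm_exp_ofReal_mul_I, mul_one]

lemma meas_log {Ω' : Type*} [MeasurableSpace Ω'] {w : Ω' → ℂ} (hw : Measurable w) (c : ℝ) :
    Measurable (Function.uncurry (fun (θ : ℝ) (s : Ω') =>
      Real.log ‖1 + w s * Complex.exp (θ * Complex.I)‖ * (1 + c * Real.cos θ))) := by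
  unfold Function.uncurry
  have h1 : Measurable (fun p : ℝ × Ω' => w p.2) := hw.comp measurable_snd
  fun_prop

lemma avg_log {Ω' : Type*} [MeasurableSpace Ω'] (ν : Measure Ω') [IsFiniteMeasure ν]
    {w : Ω' → ℂ} (hw : Measurable w) (hb : ∀ s, ‖w s‖ ≤ 1 / 2) (c : ℝ) :
    IntervalIntegrable (fun θ : ℝ => (∫ s, Real.log ‖1 + w s * Complex.exp (θ * Complex.I)‖ ∂ν) *
      (1 + c * Real.cos θ)) volume 0 (2 * π) ∧
    ∫ θ in (0:ℝ)..(2*π), (∫ s, Real.log ‖1 + w s * Complex.exp (θ * Complex.I)‖ ∂ν) *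
      (1 + c * Real.cos θ) = c * π * ∫ s, (w s).re ∂ν := by
  have : IsFiniteMeasure (volume.restrict (Set.uIoc 0 (2 * π))) := ⟨by
    rw [Measure.restrict_apply_univ, Set.uIoc_of_le (by positivity), Real.volume_Ioc]
    exact ENNReal.ofReal_lt_top⟩
  have hint : Integrable (Function.uncurry (fun (θ : ℝ) (s : Ω') =>
      Real.log ‖1 + w s * Complex.exp (θ * Complex.I)‖ * (1 + c * Real.cos θ)))
      ((volume.restrict (Set.uIoc 0 (2 * π))).prod ν) := by
    refine Integrable.of_bound (meas_log hw c).aestronglyMeasurable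
      (Real.log 2 * (1 + |c|)) (Filter.Eventually.of_forall ?_)
    rintro ⟨θ, s⟩
    simp only [Function.uncurry]
    rw [norm_mul, Real.norm_eq_abs, Real.norm_eq_abs]
    have h1 : |Real.log ‖1 + w s * Complex.exp (θ * Complex.I)‖| ≤ Real.log 2 :=
      log_bd (by rw [rot_norm]; exact hb s)
    have h2 : |1 + c * Real.cos θ| ≤ 1 + |c| := by
      refine (abs_add_le _ _).trans ?_
      rw [abs_one, abs_mul]
      have := Real.abs_cos_le_one θ
      have := abs_nonneg c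
      nlinarith
    exact mul_le_mul h1 h2 (abs_nonneg _) (Real.log_nonneg (by norm_num))
  have e : ∀ θ : ℝ, (∫ s, Real.log ‖1 + w s * Complex.exp (θ * Complex.I)‖ ∂ν) *
      (1 + c * Real.cos θ) = ∫ s, Real.log ‖1 + w s * Complex.exp (θ * Complex.I)‖ *
      (1 + c * Real.cos θ) ∂ν := fun θ => (integral_mul_const _ _).symm
  simp only [e]
  constructor
  · rw [intervalIntegrable_iff]
    exact hint.integral_prod_left
  · rw [intervalIntegral_integral_swap hint]
    have e2 : ∀ s, ∫ θ in (0:ℝ)..(2*π), Real.log ‖1 + w s * Complex.exp (θ * Complex.I)‖ *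
        (1 + c * Real.cos θ) = c * π * (w s).re := fun s => (circ_log' (hb s) c).2
    simp only [e2]
    rw [integral_const_mul]

/-- the logarithm of a perturbed difference -/
lemma log_shift {x y : ℂ} {Λ : ℝ} (hΛ : 0 < Λ) (h : ‖y‖ ≤ Λ * ‖x‖) (θ : ℝ) :
    ‖((1 / (2 * Λ) : ℝ) : ℂ) * (y / x)‖ ≤ 1 / 2 ∧
    Real.log ‖x + ((1 / (2 * Λ) : ℝ) : ℂ) * Complex.exp (θ * Complex.I) * y‖ =
      Real.log ‖x‖ + Real.log ‖1 + ((1 / (2 * Λ) : ℝ) : ℂ) * (y / x) *
        Complex.exp (θ * Complex.I)‖ ∧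
    (1 / 2) * ‖x‖ ≤ ‖x + ((1 / (2 * Λ) : ℝ) : ℂ) * Complex.exp (θ * Complex.I) * y‖ := by
  have hr : (0:ℝ) < 1 / (2 * Λ) := by positivity
  have hn : ‖((1 / (2 * Λ) : ℝ) : ℂ)‖ = 1 / (2 * Λ) := by
    rw [Complex.norm_real, Real.norm_eq_abs, abs_of_pos hr]
  by_cases hx : x = 0
  · subst hx
    have hy : y = 0 := by
      rw [norm_zero, mul_zero] at h
      exact norm_le_zero_iff.1 h
    subst hy
    simp
  have hx0 : 0 < ‖x‖ := norm_pos_iff.2 hx
  have hw : ‖((1 / (2 * Λ) : ℝ) : ℂ) * (y / x)‖ ≤ 1 / 2 := by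
    rw [norm_mul, hn, norm_div]
    have : ‖y‖ / ‖x‖ ≤ Λ := by rw [div_le_iff₀ hx0]; exact h
    calc 1 / (2 * Λ) * (‖y‖ / ‖x‖) ≤ 1 / (2 * Λ) * Λ := by gcongr
      _ = 1 / 2 := by field_simp
  have e : x + ((1 / (2 * Λ) : ℝ) : ℂ) * Complex.exp (θ * Complex.I) * y =
      x * (1 + ((1 / (2 * Λ) : ℝ) : ℂ) * (y / x) * Complex.exp (θ * Complex.I)) := by
    field_simp
  have hne : (1 + ((1 / (2 * Λ) : ℝ) : ℂ) * (y / x) * Complex.exp (θ * Complex.I)) ≠ 0 :=
    Complex.slitPlane_ne_zero (slit hw (by rw [Complex.norm_exp_ofReal_mul_I]; norm_num))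
  refine ⟨hw, ?_, ?_⟩
  · rw [e, norm_mul, Real.log_mul hx0.ne' (norm_ne_zero_iff.2 hne)]
  · rw [e, norm_mul, mul_comm (1 / 2 : ℝ)]
    refine mul_le_mul_of_nonneg_left ?_ hx0.le
    have := norm_sub_norm_le (1 : ℂ)
      (-(((1 / (2 * Λ) : ℝ) : ℂ) * (y / x) * Complex.exp (θ * Complex.I)))
    rw [norm_one, norm_neg, sub_neg_eq_add, rot_norm] at this
    linarith

lemma kap_le {v : ℂ} (hv : v ≠ 0) (δ : ℝ) : kap δ v ≤ -Real.log ‖v‖ := by
  unfold kap
  have h0 : 0 < ‖v‖ := norm_pos_iff.2 hv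
  have h1 : Real.log (‖v‖ ^ 2) ≤ Real.log (‖v‖ ^ 2 + δ ^ 2) :=
    Real.log_le_log (by positivity) (by nlinarith [sq_nonneg δ])
  rw [Real.log_pow] at h1
  push_cast at h1
  linarith

lemma kap_zero (δ : ℝ) : kap δ 0 = Real.log (1 / δ) := by
  unfold kap
  rw [norm_zero, show (0:ℝ) ^ 2 + δ ^ 2 = δ ^ 2 by ring, Real.log_pow, one_div δ, Real.log_inv]
  push_cast
  ring

lemma neg_kap_le {x v : ℂ} (hx : x ≠ 0) (hxv : (1 / 2) * ‖x‖ ≤ ‖v‖) {δ : ℝ} (hδ : 0 < δ) :
    -kap δ v ≤ Real.log ‖v‖ + (1 / 2) * Real.log (1 + 4 * δ ^ 2 / ‖x‖ ^ 2) := by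
  unfold kap
  have hx0 : 0 < ‖x‖ := norm_pos_iff.2 hx
  have hv0 : 0 < ‖v‖ := by linarith
  have e : ‖v‖ ^ 2 + δ ^ 2 = ‖v‖ ^ 2 * (1 + δ ^ 2 / ‖v‖ ^ 2) := by field_simp
  have h1 : Real.log (1 + δ ^ 2 / ‖v‖ ^ 2) ≤ Real.log (1 + 4 * δ ^ 2 / ‖x‖ ^ 2) := by
    refine Real.log_le_log (by positivity) ?_
    have : δ ^ 2 / ‖v‖ ^ 2 ≤ 4 * δ ^ 2 / ‖x‖ ^ 2 := by
      rw [div_le_div_iff₀ (by positivity) (by positivity)]
      have : ‖x‖ ^ 2 ≤ 4 * ‖v‖ ^ 2 := by nlinarith
      nlinarith [sq_nonneg δ]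
    linarith
  rw [e, Real.log_mul (by positivity) (by positivity), Real.log_pow]
  push_cast
  linarith

lemma kap_bd {δ : ℝ} (hδ : 0 < δ) {v : ℂ} {R : ℝ} (hv : ‖v‖ ≤ R) :
    ‖kap δ v‖ ≤ |Real.log (δ ^ 2)| + |Real.log (R ^ 2 + δ ^ 2)| := by
  unfold kap
  rw [norm_mul, Real.norm_eq_abs, Real.norm_eq_abs]
  have h1 : |(-(1 / 2) : ℝ)| = 1 / 2 := by norm_num
  rw [h1]
  have h2 : Real.log (δ ^ 2) ≤ Real.log (‖v‖ ^ 2 + δ ^ 2) :=
    Real.log_le_log (by positivity) (by nlinarith [sq_nonneg ‖v‖])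
  have h3 : Real.log (‖v‖ ^ 2 + δ ^ 2) ≤ Real.log (R ^ 2 + δ ^ 2) :=
    Real.log_le_log (by positivity) (by nlinarith [norm_nonneg v])
  have h4 : |Real.log (‖v‖ ^ 2 + δ ^ 2)| ≤ |Real.log (δ ^ 2)| + |Real.log (R ^ 2 + δ ^ 2)| := by
    rw [abs_le]
    have := neg_abs_le (Real.log (δ ^ 2))
    have := le_abs_self (Real.log (R ^ 2 + δ ^ 2))
    have := abs_nonneg (Real.log (δ ^ 2))
    have := abs_nonneg (Real.log (R ^ 2 + δ ^ 2))
    constructor <;> linarith
  have := abs_nonneg (Real.log (‖v‖ ^ 2 + δ ^ 2))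
  linarith

lemma meas_kap {δ : ℝ} : Measurable (kap δ) := by
  unfold kap
  fun_prop

lemma int_kap {Ω' : Type*} [MeasurableSpace Ω'] (ν : Measure Ω') [IsFiniteMeasure ν]
    {w : Ω' → ℂ} (hw : Measurable w) {R : ℝ} (hb : ∀ s, ‖w s‖ ≤ R) {δ : ℝ} (hδ : 0 < δ) :
    Integrable (fun s => kap δ (w s)) ν :=
  Integrable.of_bound (meas_kap.comp hw).aestronglyMeasurable _
    (Filter.Eventually.of_forall (fun s => kap_bd hδ (hb s)))

lemma int_log1 {Ω' : Type*} [MeasurableSpace Ω'] (ν : Measure Ω') [IsFiniteMeasure ν]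
    {w : Ω' → ℂ} (hw : Measurable w) (hb : ∀ s, ‖w s‖ ≤ 1 / 2) (θ : ℝ) :
    Integrable (fun s => Real.log ‖1 + w s * Complex.exp (θ * Complex.I)‖) ν := by
  have hm : Measurable (fun s => Real.log ‖1 + w s * Complex.exp (θ * Complex.I)‖) := by fun_prop
  refine Integrable.of_bound hm.aestronglyMeasurable (Real.log 2)
    (Filter.Eventually.of_forall ?_)
  intro s
  rw [Real.norm_eq_abs]
  exact log_bd (by rw [rot_norm]; exact hb s)

lemma int_log2 {Ω' : Type*} [MeasurableSpace Ω'] (ν : Measure Ω') [IsFiniteMeasure ν]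
    {w : Ω' → ℂ} (hw : Measurable w) {R : ℝ} (hb : ∀ s, ‖w s‖ ≤ R)
    (hi : Integrable (fun s => Real.log ‖w s‖) ν) {δ : ℝ} (hδ : 0 < δ)
    (hne : ∀ᵐ s ∂ν, w s ≠ 0) :
    Integrable (fun s => Real.log (1 + 4 * δ ^ 2 / ‖w s‖ ^ 2)) ν := by
  have h1 := (int_kap ν hw hb (δ := 2 * δ) (by positivity)).const_mul (-2)
  have h2 := h1.sub (hi.const_mul 2)
  refine h2.congr ?_
  filter_upwards [hne] with s hs
  have h0 : 0 < ‖w s‖ := norm_pos_iff.2 hs
  simp only [Pi.sub_apply, kap]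
  have e : ‖w s‖ ^ 2 + (2 * δ) ^ 2 = ‖w s‖ ^ 2 * (1 + 4 * δ ^ 2 / ‖w s‖ ^ 2) := by
    field_simp; ring
  rw [e, Real.log_mul (by positivity) (by positivity), Real.log_pow]
  push_cast
  ring

lemma ii_sum {ι : Type*} (s : Finset ι) {f : ι → ℝ → ℝ} {a b : ℝ}
    (h : ∀ i, IntervalIntegrable (f i) volume a b) :
    IntervalIntegrable (fun x => ∑ i ∈ s, f i x) volume a b := by
  have := IntervalIntegrable.sum (μ := volume) (a := a) (b := b) s (f := f) (fun i _ => h i)
  rwa [Finset.sum_fn] at this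

end HarnackAux

open HarnackAux in
theorem harnack_energy {Ω : Type*} [MeasurableSpace Ω] (μ : Measure Ω) [IsProbabilityMeasure μ]
    {n : ℕ} (z gz : Fin n → ℂ) (Z G : Ω → ℂ) (hZ : Measurable Z) (hG : Measurable G)
    (hZb : ∃ R, ∀ s, ‖Z s‖ ≤ R) (hGb : ∃ R, ∀ s, ‖G s‖ ≤ R)
    {Λ : ℝ} (hΛ : 0 < Λ)
    (h1 : ∀ j k, ‖gz j - gz k‖ ≤ Λ * ‖z j - z k‖)
    (h2 : ∀ j s, ‖gz j - G s‖ ≤ Λ * ‖z j - Z s‖)
    (h3 : ∀ s s', ‖G s - G s'‖ ≤ Λ * ‖Z s - Z s'‖)
    (hinj : Function.Injective z)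
    (hne1 : ∀ j, ∀ᵐ s ∂μ, z j ≠ Z s)
    (hne2 : ∀ᵐ p ∂(μ.prod μ), Z p.1 ≠ Z p.2)
    (hi1 : ∀ j, Integrable (fun s => Real.log ‖z j - Z s‖) μ)
    (hi2 : Integrable (fun p : Ω × Ω => Real.log ‖Z p.1 - Z p.2‖) (μ.prod μ))
    {δ : ℝ} (hδ : 0 < δ) :
    |(∑ j, ∑ k, ((gz j - gz k) / (z j - z k)).re)
        - 2 * n * (∑ j, ∫ s, ((gz j - G s) / (z j - Z s)).re ∂μ)
        + (n : ℝ) ^ 2 * ∫ s, ∫ s', ((G s - G s') / (Z s - Z s')).re ∂μ ∂μ|
    ≤ 4 * Λ * (-(∑ j, ∑ k, Real.log ‖z j - z k‖) + 2 * n * (∑ j, ∫ s, Real.log ‖z j - Z s‖ ∂μ)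
        - (n : ℝ) ^ 2 * (∫ s, ∫ s', Real.log ‖Z s - Z s'‖ ∂μ ∂μ) + n * Real.log (1 / δ)
        + n * ∑ j, ∫ s, Real.log (1 + 4 * δ ^ 2 / ‖z j - Z s‖ ^ 2) ∂μ) := by
  obtain ⟨RZ, hRZ⟩ := hZb
  obtain ⟨RG, hRG⟩ := hGb
  have hr : (0:ℝ) < 1 / (2 * Λ) := by positivity
  -- the quotients
  set q1 : Fin n → Fin n → ℂ := fun j k => (gz j - gz k) / (z j - z k) with hq1
  set q2 : Fin n → Ω → ℂ := fun j s => (gz j - G s) / (z j - Z s) with hq2
  set q3 : Ω × Ω → ℂ := fun p => (G p.1 - G p.2) / (Z p.1 - Z p.2) with hq3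
  set r : ℂ := ((1 / (2 * Λ) : ℝ) : ℂ) with hrdef
  have hZ1 : Measurable (fun p : Ω × Ω => Z p.1) := hZ.comp measurable_fst
  have hZ2 : Measurable (fun p : Ω × Ω => Z p.2) := hZ.comp measurable_snd
  have hG1 : Measurable (fun p : Ω × Ω => G p.1) := hG.comp measurable_fst
  have hG2 : Measurable (fun p : Ω × Ω => G p.2) := hG.comp measurable_snd
  have m2 : ∀ j, Measurable (q2 j) := fun j => by
    exact (measurable_const.sub hG).div (measurable_const.sub hZ)
  have m3 : Measurable q3 := (hG1.sub hG2).div (hZ1.sub hZ2)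
  have b1 : ∀ j k, ‖r * q1 j k‖ ≤ 1 / 2 := fun j k => (log_shift hΛ (h1 j k) 0).1
  have b2 : ∀ j s, ‖r * q2 j s‖ ≤ 1 / 2 := fun j s => (log_shift hΛ (h2 j s) 0).1
  have b3 : ∀ p, ‖r * q3 p‖ ≤ 1 / 2 := fun p => (log_shift hΛ (h3 p.1 p.2) 0).1
  have m2' : ∀ j, Measurable (fun s => r * q2 j s) := fun j => measurable_const.mul (m2 j)
  have m3' : Measurable (fun p => r * q3 p) := measurable_const.mul m3
  -- constants
  set E0 : ℝ := -(∑ j, ∑ k, Real.log ‖z j - z k‖) + 2 * n * (∑ j, ∫ s, Real.log ‖z j - Z s‖ ∂μ)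
        - (n : ℝ) ^ 2 * (∫ s, ∫ s', Real.log ‖Z s - Z s'‖ ∂μ ∂μ) with hE0
  set M : ℝ := n * Real.log (1 / δ)
        + n * ∑ j, ∫ s, Real.log (1 + 4 * δ ^ 2 / ‖z j - Z s‖ ^ 2) ∂μ with hM
  have eE : E0 = -(∑ j, ∑ k, Real.log ‖z j - z k‖)
      + 2 * n * (∑ j, ∫ s, Real.log ‖z j - Z s‖ ∂μ)
      - (n : ℝ) ^ 2 * (∫ p, Real.log ‖Z p.1 - Z p.2‖ ∂(μ.prod μ)) := by
    rw [hE0, integral_prod _ hi2]
  set P : ℝ → ℝ := fun θ => -(∑ j, ∑ k, Real.log ‖1 + r * q1 j k * Complex.exp (θ * Complex.I)‖)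
      + 2 * n * (∑ j, ∫ s, Real.log ‖1 + r * q2 j s * Complex.exp (θ * Complex.I)‖ ∂μ)
      - (n : ℝ) ^ 2 * (∫ p, Real.log ‖1 + r * q3 p * Complex.exp (θ * Complex.I)‖ ∂(μ.prod μ))
      with hP
  -- positivity for every angle
  have hpos : ∀ θ : ℝ, 0 ≤ E0 + M + P θ := by
    intro θ
    set e : ℂ := r * Complex.exp (θ * Complex.I) with he
    have l1 := fun j k => (log_shift hΛ (h1 j k) θ).2.1
    have l2 := fun j s => (log_shift hΛ (h2 j s) θ).2.1
    have l3 := fun s s' => (log_shift hΛ (h3 s s') θ).2.1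
    have c1 := fun j k => (log_shift hΛ (h1 j k) θ).2.2
    have c2 := fun j s => (log_shift hΛ (h2 j s) θ).2.2
    have c3 := fun s s' => (log_shift hΛ (h3 s s') θ).2.2
    rw [← hrdef, ← he] at l1 l2 l3 c1 c2 c3
    have hAm : Measurable (fun s => Z s + e * G s) := hZ.add (measurable_const.mul hG)
    have hAb : ∀ s, ‖Z s + e * G s‖ ≤ RZ + ‖e‖ * RG := by
      intro s
      refine (norm_add_le _ _).trans ?_
      rw [norm_mul]
      have := hRZ s
      have := mul_le_mul_of_nonneg_left (hRG s) (norm_nonneg e)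
      linarith
    have hk := kap_pos μ (fun j => z j + e * gz j) (fun s => Z s + e * G s) hAm ⟨_, hAb⟩ hδ
    have d1 : ∀ j k, (z j + e * gz j) - (z k + e * gz k) = (z j - z k) + e * (gz j - gz k) := by
      intro j k; ring
    have d2 : ∀ j s, (z j + e * gz j) - (Z s + e * G s) = (z j - Z s) + e * (gz j - G s) := by
      intro j s; ring
    have d3 : ∀ s s', (Z s + e * G s) - (Z s' + e * G s') = (Z s - Z s') + e * (G s - G s') := by
      intro s s'; ring
    simp only [d1, d2, d3] at hk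
    -- first sum
    have t1 : ∑ j, ∑ k, kap δ ((z j - z k) + e * (gz j - gz k)) ≤
        -(∑ j, ∑ k, Real.log ‖z j - z k‖)
        - (∑ j, ∑ k, Real.log ‖1 + r * q1 j k * Complex.exp (θ * Complex.I)‖)
        + n * Real.log (1 / δ) := by
      have hjk : ∀ j k : Fin n, kap δ ((z j - z k) + e * (gz j - gz k)) ≤
          -Real.log ‖z j - z k‖ - Real.log ‖1 + r * q1 j k * Complex.exp (θ * Complex.I)‖
          + (if j = k then Real.log (1 / δ) else 0) := by
        intro j k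
        by_cases hjk : j = k
        · subst hjk
          simp [hq1, kap_zero δ]
        · have hz : z j - z k ≠ 0 := sub_ne_zero.2 (fun h => hjk (hinj h))
          have hv : (z j - z k) + e * (gz j - gz k) ≠ 0 := by
            rw [← norm_pos_iff]
            have := c1 j k
            have := norm_pos_iff.2 hz
            linarith
          have h5 := kap_le hv δ
          rw [l1 j k] at h5
          rw [if_neg hjk]
          linarith
      calc ∑ j, ∑ k, kap δ ((z j - z k) + e * (gz j - gz k)) ≤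
          ∑ j, ∑ k, (-Real.log ‖z j - z k‖
            - Real.log ‖1 + r * q1 j k * Complex.exp (θ * Complex.I)‖
            + (if j = k then Real.log (1 / δ) else 0)) :=
            Finset.sum_le_sum (fun j _ => Finset.sum_le_sum (fun k _ => hjk j k))
        _ = _ := by
            simp only [Finset.sum_add_distrib, Finset.sum_sub_distrib, Finset.sum_neg_distrib,
              Finset.sum_ite_eq, Finset.mem_univ, if_true, Finset.sum_const, Finset.card_univ,
              Fintype.card_fin, nsmul_eq_mul]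
    -- second sum
    have t2 : ∀ j, -(∫ s, kap δ ((z j - Z s) + e * (gz j - G s)) ∂μ) ≤
        (∫ s, Real.log ‖z j - Z s‖ ∂μ)
        + (∫ s, Real.log ‖1 + r * q2 j s * Complex.exp (θ * Complex.I)‖ ∂μ)
        + (1 / 2) * ∫ s, Real.log (1 + 4 * δ ^ 2 / ‖z j - Z s‖ ^ 2) ∂μ := by
      intro j
      have hm : Measurable (fun s => (z j - Z s) + e * (gz j - G s)) :=
        (measurable_const.sub hZ).add (measurable_const.mul (measurable_const.sub hG))
      have hb : ∀ s, ‖(z j - Z s) + e * (gz j - G s)‖ ≤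
          (‖z j‖ + RZ) + ‖e‖ * (‖gz j‖ + RG) := by
        intro s
        refine (norm_add_le _ _).trans ?_
        rw [norm_mul]
        have e1 := norm_sub_le (z j) (Z s)
        have e2 := norm_sub_le (gz j) (G s)
        have := hRZ s
        have := mul_le_mul_of_nonneg_left (e2.trans (add_le_add_right (hRG s) _))
          (norm_nonneg e)
        linarith
      have ik := int_kap μ hm hb hδ
      have il := int_log1 μ (m2' j) (b2 j) θ
      have hbz : ∀ s, ‖z j - Z s‖ ≤ ‖z j‖ + RZ := fun s =>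
        (norm_sub_le _ _).trans (add_le_add_right (hRZ s) _)
      have i3 : Integrable (fun s => Real.log (1 + 4 * δ ^ 2 / ‖z j - Z s‖ ^ 2)) μ :=
        int_log2 μ (measurable_const.sub hZ : Measurable (fun s => z j - Z s)) hbz
        (hi1 j) hδ (by filter_upwards [hne1 j] with s hs using sub_ne_zero.2 hs)
      have ia : Integrable (fun s => Real.log ‖z j - Z s‖
          + Real.log ‖1 + r * q2 j s * Complex.exp (θ * Complex.I)‖) μ := (hi1 j).add il
      have ic : Integrable (fun s => (1 / 2) * Real.log (1 + 4 * δ ^ 2 / ‖z j - Z s‖ ^ 2)) μ :=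
        i3.const_mul _
      have iall : Integrable (fun s => Real.log ‖z j - Z s‖
          + Real.log ‖1 + r * q2 j s * Complex.exp (θ * Complex.I)‖
          + (1 / 2) * Real.log (1 + 4 * δ ^ 2 / ‖z j - Z s‖ ^ 2)) μ := ia.add ic
      have ineg : Integrable (fun s => -kap δ ((z j - Z s) + e * (gz j - G s))) μ := ik.neg
      rw [← integral_neg, ← integral_const_mul, ← integral_add (hi1 j) il,
        ← integral_add ia ic]
      refine integral_mono_ae ineg iall ?_
      filter_upwards [hne1 j] with s hs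
      have h5 := neg_kap_le (sub_ne_zero.2 hs) (c2 j s) hδ
      rw [l2 j s] at h5
      exact h5
    -- third term
    have t3 : (∫ s, ∫ s', kap δ ((Z s - Z s') + e * (G s - G s')) ∂μ ∂μ) ≤
        -(∫ p, Real.log ‖Z p.1 - Z p.2‖ ∂(μ.prod μ))
        - (∫ p, Real.log ‖1 + r * q3 p * Complex.exp (θ * Complex.I)‖ ∂(μ.prod μ)) := by
      have hm : Measurable (fun p : Ω × Ω => (Z p.1 - Z p.2) + e * (G p.1 - G p.2)) :=
        (hZ1.sub hZ2).add (measurable_const.mul (hG1.sub hG2))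
      have hb : ∀ p : Ω × Ω, ‖(Z p.1 - Z p.2) + e * (G p.1 - G p.2)‖ ≤
          (RZ + RZ) + ‖e‖ * (RG + RG) := by
        intro p
        refine (norm_add_le _ _).trans ?_
        rw [norm_mul]
        have e1 := norm_sub_le (Z p.1) (Z p.2)
        have e2 := norm_sub_le (G p.1) (G p.2)
        have := hRZ p.1
        have := hRZ p.2
        have := mul_le_mul_of_nonneg_left (e2.trans (add_le_add (hRG p.1) (hRG p.2)))
          (norm_nonneg e)
        linarith
      have ik := int_kap (μ.prod μ) hm hb hδ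
      have il := int_log1 (μ.prod μ) m3' b3 θ
      have i2n : Integrable (fun p : Ω × Ω => -Real.log ‖Z p.1 - Z p.2‖) (μ.prod μ) := hi2.neg
      have i2s : Integrable (fun p : Ω × Ω => -Real.log ‖Z p.1 - Z p.2‖
          - Real.log ‖1 + r * q3 p * Complex.exp (θ * Complex.I)‖) (μ.prod μ) := i2n.sub il
      rw [← integral_prod _ ik, ← integral_neg, ← integral_sub i2n il]
      refine integral_mono_ae ik i2s ?_
      filter_upwards [hne2] with p hp
      have hv : (Z p.1 - Z p.2) + e * (G p.1 - G p.2) ≠ 0 := by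
        rw [← norm_pos_iff]
        have := c3 p.1 p.2
        have := norm_pos_iff.2 (sub_ne_zero.2 hp)
        linarith
      have h5 := kap_le hv δ
      rw [l3 p.1 p.2] at h5
      show kap δ (Z p.1 - Z p.2 + e * (G p.1 - G p.2)) ≤ -Real.log ‖Z p.1 - Z p.2‖
          - Real.log ‖1 + r * ((G p.1 - G p.2) / (Z p.1 - Z p.2)) *
            Complex.exp (θ * Complex.I)‖
      linarith
    have t2' : -(∑ j, ∫ s, kap δ ((z j - Z s) + e * (gz j - G s)) ∂μ) ≤
        (∑ j, ∫ s, Real.log ‖z j - Z s‖ ∂μ)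
        + (∑ j, ∫ s, Real.log ‖1 + r * q2 j s * Complex.exp (θ * Complex.I)‖ ∂μ)
        + (1 / 2) * ∑ j, ∫ s, Real.log (1 + 4 * δ ^ 2 / ‖z j - Z s‖ ^ 2) ∂μ := by
      rw [← Finset.sum_neg_distrib, Finset.mul_sum, ← Finset.sum_add_distrib,
        ← Finset.sum_add_distrib]
      exact Finset.sum_le_sum (fun j _ => t2 j)
    have t2'' := mul_le_mul_of_nonneg_left t2' (by positivity : (0:ℝ) ≤ 2 * n)
    have t3' := mul_le_mul_of_nonneg_left t3 (by positivity : (0:ℝ) ≤ (n:ℝ) ^ 2)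
    rw [eE, hM, hP]
    simp only
    nlinarith
  -- integrate over the circle
  have hpi := Real.pi_pos
  set Q : ℝ := (∑ j, ∑ k, (q1 j k).re) - 2 * n * (∑ j, ∫ s, (q2 j s).re ∂μ)
        + (n : ℝ) ^ 2 * ∫ p, (q3 p).re ∂(μ.prod μ) with hQ
  have key : ∀ c : ℝ, |c| ≤ 1 → 0 ≤ 2 * π * (E0 + M) - c * π * (1 / (2 * Λ)) * Q := by
    intro c hc
    have i0 : IntervalIntegrable (fun θ : ℝ => (E0 + M) * (1 + c * Real.cos θ)) volume 0 (2 * π) :=
      Continuous.intervalIntegrable (by fun_prop) _ _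
    have v0 : ∫ θ in (0:ℝ)..(2*π), (E0 + M) * (1 + c * Real.cos θ) = (E0 + M) * (2 * π) := by
      rw [intervalIntegral.integral_const_mul, intervalIntegral.integral_add,
        intervalIntegral.integral_const_mul, integral_cos]
      · simp
      · exact Continuous.intervalIntegrable (by fun_prop) _ _
      · exact Continuous.intervalIntegrable (by fun_prop) _ _
    have g1 := fun j k => circ_log' (b1 j k) c
    have g2 := fun j => avg_log μ (m2' j) (b2 j) c
    have g3 := avg_log (μ.prod μ) m3' b3 c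
    have hexp : ∀ θ : ℝ, (E0 + M + P θ) * (1 + c * Real.cos θ) =
        (E0 + M) * (1 + c * Real.cos θ)
        - (∑ j, ∑ k, Real.log ‖1 + r * q1 j k * Complex.exp (θ * Complex.I)‖ *
            (1 + c * Real.cos θ))
        + 2 * n * (∑ j, (∫ s, Real.log ‖1 + r * q2 j s * Complex.exp (θ * Complex.I)‖ ∂μ) *
            (1 + c * Real.cos θ))
        - (n : ℝ) ^ 2 * ((∫ p, Real.log ‖1 + r * q3 p * Complex.exp (θ * Complex.I)‖
            ∂(μ.prod μ)) * (1 + c * Real.cos θ)) := by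
      intro θ
      simp only [hP, ← Finset.sum_mul]
      ring
    have hnn : 0 ≤ ∫ θ in (0:ℝ)..(2*π), (E0 + M + P θ) * (1 + c * Real.cos θ) := by
      refine intervalIntegral.integral_nonneg (by positivity) (fun θ _ => ?_)
      refine mul_nonneg (hpos θ) ?_
      have e1 := Real.abs_cos_le_one θ
      have e2 : |c * Real.cos θ| ≤ 1 := by
        rw [abs_mul]
        exact mul_le_one₀ hc (abs_nonneg _) e1
      have := neg_abs_le (c * Real.cos θ)
      linarith
    simp only [hexp] at hnn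
    have j1 : IntervalIntegrable (fun θ : ℝ => ∑ j, ∑ k,
        Real.log ‖1 + r * q1 j k * Complex.exp (θ * Complex.I)‖ * (1 + c * Real.cos θ))
        volume 0 (2 * π) :=
      ii_sum _ (fun j => ii_sum _ (fun k => (g1 j k).1))
    have j2 : IntervalIntegrable (fun θ : ℝ => ∑ j,
        (∫ s, Real.log ‖1 + r * q2 j s * Complex.exp (θ * Complex.I)‖ ∂μ) *
            (1 + c * Real.cos θ)) volume 0 (2 * π) :=
      ii_sum _ (fun j => (g2 j).1)
    rw [intervalIntegral.integral_sub ((i0.sub j1).add (j2.const_mul _)) (g3.1.const_mul _),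
      intervalIntegral.integral_add (i0.sub j1) (j2.const_mul _),
      intervalIntegral.integral_sub i0 j1, v0, intervalIntegral.integral_const_mul,
      intervalIntegral.integral_const_mul, g3.2,
      intervalIntegral.integral_finsetSum (fun j _ => (g2 j).1),
      intervalIntegral.integral_finsetSum (fun j _ => ii_sum _ (fun k => (g1 j k).1))] at hnn
    have v1 : ∀ j, ∫ θ in (0:ℝ)..(2*π), ∑ k,
        Real.log ‖1 + r * q1 j k * Complex.exp (θ * Complex.I)‖ * (1 + c * Real.cos θ) =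
        ∑ k, c * π * (1 / (2 * Λ) * (q1 j k).re) := by
      intro j
      rw [intervalIntegral.integral_finsetSum (fun k _ => (g1 j k).1)]
      refine Finset.sum_congr rfl (fun k _ => ?_)
      rw [(g1 j k).2, hrdef, Complex.re_ofReal_mul]
    have v2 : ∀ j, ∫ θ in (0:ℝ)..(2*π),
        (∫ s, Real.log ‖1 + r * q2 j s * Complex.exp (θ * Complex.I)‖ ∂μ) *
            (1 + c * Real.cos θ) = c * π * (1 / (2 * Λ) * ∫ s, (q2 j s).re ∂μ) := by
      intro j
      have e0 : ∫ s, (r * q2 j s).re ∂μ = 1 / (2 * Λ) * ∫ s, (q2 j s).re ∂μ := by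
        rw [← integral_const_mul]
        congr 1
        funext s
        rw [hrdef, Complex.re_ofReal_mul]
      rw [(g2 j).2, e0]
    have v3 : ∫ p, (r * q3 p).re ∂(μ.prod μ) = 1 / (2 * Λ) * ∫ p, (q3 p).re ∂(μ.prod μ) := by
      rw [← integral_const_mul]
      congr 1
      funext p
      rw [hrdef, Complex.re_ofReal_mul]
    simp only [v1, v2] at hnn
    rw [v3] at hnn
    simp only [← Finset.mul_sum] at hnn
    rw [hQ]
    nlinarith
  have hQ2 : (∑ j, ∑ k, ((gz j - gz k) / (z j - z k)).re)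
        - 2 * n * (∑ j, ∫ s, ((gz j - G s) / (z j - Z s)).re ∂μ)
        + (n : ℝ) ^ 2 * ∫ s, ∫ s', ((G s - G s') / (Z s - Z s')).re ∂μ ∂μ = Q := by
    have i3 : Integrable (fun p => (q3 p).re) (μ.prod μ) := by
      refine Integrable.of_bound (Complex.measurable_re.comp m3).aestronglyMeasurable Λ
        (Filter.Eventually.of_forall (fun p => ?_))
      have e1 := Complex.abs_re_le_norm (q3 p)
      have e2 := b3 p
      rw [norm_mul, hrdef, Complex.norm_real, Real.norm_eq_abs, abs_of_pos hr] at e2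
      rw [Real.norm_eq_abs]
      have e3 : ‖q3 p‖ ≤ Λ := by
        have : 1 / (2 * Λ) * ‖q3 p‖ * (2 * Λ) ≤ 1 / 2 * (2 * Λ) := by gcongr
        field_simp at this
        linarith
      linarith
    rw [hQ, integral_prod _ i3]
  rw [hQ2]
  have k1 := key 1 (by norm_num)
  have k2 := key (-1) (by norm_num)
  have hE : 4 * Λ * (E0 + M) = (2 * π * (E0 + M)) * (2 * Λ / π) := by field_simp; ring
  have hQe : Q = (π * (1 / (2 * Λ)) * Q) * (2 * Λ / π) := by field_simp
  have hpos2 : 0 < 2 * Λ / π := by positivity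
  have hfin : |Q| ≤ 4 * Λ * (E0 + M) := by
    rw [abs_le, hE]
    constructor
    · have := mul_nonneg k2 hpos2.le
      nlinarith
    · have := mul_nonneg k1 hpos2.le
      nlinarith
  have : E0 + M = -(∑ j, ∑ k, Real.log ‖z j - z k‖)
        + 2 * n * (∑ j, ∫ s, Real.log ‖z j - Z s‖ ∂μ)
        - (n : ℝ) ^ 2 * (∫ s, ∫ s', Real.log ‖Z s - Z s'‖ ∂μ ∂μ) + n * Real.log (1 / δ)
        + n * ∑ j, ∫ s, Real.log (1 + 4 * δ ^ 2 / ‖z j - Z s‖ ^ 2) ∂μ := by
    rw [hE0, hM]; ring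
  rw [← this]
  exact hfin

end Pool.Agent.Work.MP_82f4f8_an
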